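import Mathlib
import Pool.Agent.W5h75.SU.AllO

/-!
# Almost prime Cunningham chains in almost all very short intervals, with a prescribed parity

Let `0 < θ ≤ 1` and `ε, η > 0`.  For all but at most `η X` of the integers `N ≤ X` the very short
interval `(N, N + N ^ θ]` contains, in a given residue class, the beginnings `n` of at least
`N ^ (θ - ε)` chains `n, 2 n + 1, 4 n + 3, ...` of length `k` whose terms are products of at most `R`
primes, all larger than `N ^ δ`, such that the number of prime factors of the term at position `j` is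
even, and as many for which it is odd, for every position `j`.

The main theorem is `Pool.Agent.W5h75.SU.almostAll`.  Idea: in the exceptional windows the parity is
constant up to few exceptions; a sieve relates the constants `g(u V)`, `g(u V')` of the windows at
`u V` and at `u V'` for rough numbers `V, V'`, and so the constants correlate with
`(-1) ^ Ω(V)`; this is impossible by Plancherel's formula because the sums
`∑ w(V) (-1) ^ Ω(V) V ^ (i t)` over a suitable probability measure on products of `k` rough numbers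
are at most `(7 / 8) ^ k`.
-/

set_option autoImplicit false

open Finset

namespace Pool.Agent.Results.MP_c77da8_nt.AlmostAllShortIntervals

/-- `c j n = 2 ^ j (n + 1) - 1`, the chain `n, 2 n + 1, 4 n + 3, ...` of the first kind. -/
def c (j n : ℕ) : ℕ := 2 ^ j * (n + 1) - 1

theorem c_cast (j n : ℕ) : ((c j n : ℕ) : ℤ) = 2 ^ j * (n : ℤ) + (2 ^ j - 1) := by
  unfold c
  have h1 : 1 ≤ 2 ^ j * (n + 1) := Nat.one_le_iff_ne_zero.2 (by positivity)
  rw [Nat.cast_sub h1]
  push_cast
  ring

/-- **Almost prime chains of the first kind in almost all very short intervals, with prescribed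
parity.**
Let `k` be a length, let `b`, `m` be such that the terms `c i b`, `i < k`, are coprime to `m`, let
`0 < θ ≤ 1` and `ε, η > 0`. There are `R` and `δ > 0` such that for all large `X` all but at most
`η X` of the integers `N ≤ X` satisfy: for every position `j < k` and both parities `s` at least
`N ^ (θ - ε)` integers `n` in `(N, N + N ^ θ]` with `n ≡ b` modulo `m` have the property that the terms
`c 0 n, ..., c (k-1) n` are products of at most `R` primes, all larger than `N ^ δ`, and the number of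
prime factors (with multiplicity) of the term `c j n` has the parity of `s`. -/
theorem result (k m b : ℕ) (hm : 0 < m)
    (hb : ∀ i < k, Nat.Coprime (c i b) m) (θ ε η : ℝ) (hθ : 0 < θ) (hθ1 : θ ≤ 1) (hε : 0 < ε)
    (hη : 0 < η) :
    ∃ (R : ℕ) (δ : ℝ), 0 < δ ∧ ∃ X₀ : ℝ, ∀ X : ℝ, X₀ ≤ X →
    ({N : ℕ | (N : ℝ) ≤ X ∧ ¬ ∀ j s : ℕ, j < k → (N : ℝ) ^ (θ - ε) ≤
      ({n : ℕ | N < n ∧ (n : ℝ) ≤ N + (N : ℝ) ^ θ ∧ n ≡ b [MOD m] ∧
        (∀ i < k, ArithmeticFunction.cardFactors (c i n) ≤ R ∧
          ∀ p : ℕ, p.Prime → p ∣ c i n → (N : ℝ) ^ δ < p) ∧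
        ArithmeticFunction.cardFactors (c j n) % 2 = s % 2}.ncard : ℝ)}.ncard : ℝ) ≤ η * X := by
  classical
  obtain ⟨R, δ, hδ, X₀, h⟩ := Pool.Agent.W5h75.SU.almostAll {i // i ∈ range k}
    (fun i => 2 ^ (i : ℕ)) (fun i => 2 ^ (i : ℕ) - 1)
    (fun i => by positivity) m hm b (by
      intro p hp
      by_cases hpm : p ∣ m
      · refine ⟨0, fun i hd => ?_⟩
        have h1 : (p : ℤ) ∣ ((c i b : ℕ) : ℤ) := by
          rw [c_cast]
          simpa using hd
        have h2 : p ∣ c i b := Int.natCast_dvd_natCast.1 h1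
        exact Nat.not_coprime_of_dvd_of_dvd hp.one_lt h2 hpm (hb i (mem_range.1 i.2))
      · have hc2 : IsCoprime (m : ℤ) (p : ℤ) := by
          rw [Nat.isCoprime_iff_coprime]
          exact ((Nat.Prime.coprime_iff_not_dvd hp).2 hpm).symm
        obtain ⟨u', v', huv'⟩ := hc2
        refine ⟨u' * (-1 - b), fun i hd => ?_⟩
        have h1 : (-1 : ℤ) = (2 ^ (i : ℕ) * (b + m * (u' * (-1 - b))) + (2 ^ (i : ℕ) - 1)) -
            p * (2 ^ (i : ℕ) * ((1 + b) * v')) := by
          linear_combination (2 ^ (i : ℕ) * (1 + (b : ℤ))) * huv'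
        have h2 : (p : ℤ) ∣ -1 := by
          rw [h1]
          exact dvd_sub hd (dvd_mul_right _ _)
        have h3 : p ∣ 1 := by exact_mod_cast dvd_neg.1 h2
        exact hp.one_lt.ne' (Nat.dvd_one.1 h3)) θ ε η hθ hθ1 hε hη
  refine ⟨R, δ, hδ, X₀, fun X hX => (Nat.cast_le.2 (Set.ncard_le_ncard ?_ ?_)).trans (h X hX)⟩
  swap
  · apply (Set.finite_Iic ⌊X⌋₊).subset
    intro N hN
    exact Nat.le_floor hN.1
  rintro N ⟨k1, k2⟩
  refine ⟨k1, fun k3 => k2 fun j s hj => ?_⟩
  refine (k3 ⟨j, mem_range.2 hj⟩ (s : ZMod 2)).trans (Nat.cast_le.2 (Set.ncard_le_ncard ?_ ?_))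
  swap
  · apply (Set.finite_Iic ⌊(N : ℝ) + (N : ℝ) ^ θ⌋₊).subset
    intro n hn
    exact Nat.le_floor hn.2.1
  rintro n ⟨h1, h2, h3, h4, h5⟩
  have hcf : ∀ i : ℕ, ArithmeticFunction.cardFactors (c i n) =
      ArithmeticFunction.cardFactors (2 ^ i * (n : ℤ) + (2 ^ i - 1)).natAbs := by
    intro i
    rw [← c_cast, Int.natAbs_natCast]
  refine ⟨h1, h2, (Nat.modEq_iff_dvd.2 (by
    have : (b : ℤ) - n = -((n : ℤ) - b) := by ring
    rw [this]
    exact (dvd_neg).2 h3)), fun i hi => ?_, ?_⟩
  · obtain ⟨-, h6, h7⟩ := h4 ⟨i, mem_range.2 hi⟩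
    refine ⟨by rw [hcf]; exact h6, fun p hp hd => h7 p hp ?_⟩
    have : (p : ℤ) ∣ ((c i n : ℕ) : ℤ) := Int.natCast_dvd_natCast.2 hd
    rwa [c_cast] at this
  · have h6 : ((ArithmeticFunction.cardFactors (2 ^ j * (n : ℤ) + (2 ^ j - 1)).natAbs : ℕ) : ZMod 2)
        = (s : ZMod 2) := h5
    rw [← hcf] at h6
    exact (ZMod.natCast_eq_natCast_iff' _ _ 2).1 h6

end Pool.Agent.Results.MP_c77da8_nt.AlmostAllShortIntervals
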