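import Pool.Agent.W5h22.CD.F

/-!
# Almost prime Cunningham chains along dilates of arbitrary sets

Let `Λ` be any set of real numbers which is unbounded above, as sparse as one likes (for instance `{n ^ n}` or a subset
of the powers of two). We look for chains whose first term is `⌊α x⌋`, `x ∈ Λ`: a chain hit of length `k` means that
`p = ⌊α x⌋` is a prime, `2 p + 1` has at most two prime factors, and all the terms `2 ^ j (p + 1) - 1`, `j < k`, of the
Cunningham chain which starts with `p`, are equal to `⌊2 ^ j α x⌋` and have only prime factors `> p ^ δ`; thus the terms are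
almost primes with a bounded number of prime factors. More generally the theorem treats all numbers `a (p + 1) ± 1`,
`1 ≤ a ≤ K`, at once (`K = 2 ^ (k - 1)` gives the chains of length `k` of the first kind, and those of the second kind which
start with `p + 2`).

(1) For all `α > 0` of a residual set there are, for every `K`, arbitrarily large `x ∈ Λ` with this property.

(2) The set of such `α` has Hausdorff dimension `1` in every interval `(a, b)`, `0 ≤ a < b`.

The exponents `δ K > 0` do not depend on `Λ`, and countably many sets `Λ` can be treated simultaneously. For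
`Λ = {2 ^ n}` and `K ≥ 2` the set of the `α` is a null set (the probability that the first two terms have no small factor is
`≍ n ^ {-2}`), so in (2) the dimension is the right notion.

Proof (`Pool.Agent.W5h22.CD`). Chen's theorem for `p` and `2 p + 1` inside sifted sets and in narrow windows
(`Pool.Agent.X32.CL`) gives `≥ c (b - a) x / (log x) ^ (k')` good primes in `(a x, b x)`, where `c` does not depend on the window;
the upper bound sieve for intervals of length `x ^ (1 - s)` then shows that the points at distance `≤ x ^ (- s)` of the set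
`{p / x}` have measure `≥ η (b - a)` in every interval `(a, b)`, `η = η(s)`. By Lebesgue's density theorem almost every point is
in infinitely many of these neighbourhoods, and the mass transference principle for countably many families gives the
dimension as `s → 1`.
-/

set_option autoImplicit false

open Filter

namespace Pool.Agent.Results.MP_c77da8_nt.DilatedChains

/-- `p` is a prime, `2 p + 1` has at most two prime factors (with multiplicity), and all the numbers
`a (p + 1) - 1 = ⌊a y⌋` and `a (p + 1) + 1`, `1 ≤ a ≤ K`, have only prime factors greater than `p ^ δ` -/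
def Chain (δ : ℝ) (K : ℕ) (y : ℝ) (p : ℕ) : Prop :=
  p.Prime ∧ (2 * p + 1).primeFactorsList.length ≤ 2 ∧
    ∀ a : ℕ, 1 ≤ a → a ≤ K → ⌊a * y⌋ = (a : ℤ) * (p + 1) - 1 ∧
      ∀ q : ℕ, q.Prime → (q ∣ a * (p + 1) - 1 ∨ q ∣ a * (p + 1) + 1) → (p : ℝ) ^ δ < q

theorem result : ∃ δ : ℕ → ℝ, (∀ K, 0 < δ K) ∧ ∀ Λ : ℕ → Set ℝ, (∀ i, ¬ BddAbove (Λ i)) →
    (∀ᶠ α in residual ℝ, 0 < α → ∀ i K : ℕ, ∀ T : ℝ, ∃ x ∈ Λ i, T < x ∧ ∃ p, Chain (δ K) K (α * x) p) ∧
    ∀ a b : ℝ, 0 ≤ a → a < b →
      dimH ({α : ℝ | ∀ i K : ℕ, ∀ T : ℝ, ∃ x ∈ Λ i, T < x ∧ ∃ p, Chain (δ K) K (α * x) p} ∩ Set.Ioo a b) = 1 := by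
  obtain ⟨δ, hδ, h⟩ := Pool.Agent.W5h22.CD.main_gen 2 (-1) (Or.inr ⟨rfl, le_rfl⟩) (by norm_num)
  have key : ∀ (K : ℕ) (α x : ℝ), Pool.Agent.W5h22.CD.Hit (δ K) K 2 (-1) α x →
      ∃ p, Chain (δ K) K (α * x) p := by
    rintro K α x ⟨p, ⟨h1, h2, h3⟩, h4⟩
    refine ⟨p, h1, ?_, fun a ha haK => ⟨h4 a ha haK, fun q hq hd => h3 a q ha haK hq hd⟩⟩
    have h5 : (((2 : ℕ) : ℤ) * (p + 1) + -1).natAbs = 2 * p + 1 := by
      push_cast
      omega
    rwa [h5] at h2
  refine ⟨δ, hδ, ?_⟩
  intro Λ hΛ
  obtain ⟨h1, h2⟩ := h Λ hΛ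
  constructor
  · filter_upwards [h1] with α hα hα0 i K T
    obtain ⟨x, hx, hxT, hH⟩ := hα hα0 i K T
    exact ⟨x, hx, hxT, key K α x hH⟩
  · intro a b ha hab
    apply le_antisymm
    · exact (dimH_mono (Set.subset_univ _)).trans (le_of_eq Real.dimH_univ)
    · rw [← h2 a b ha hab]
      apply dimH_mono
      rintro α ⟨hα, hab'⟩
      refine ⟨?_, hab'⟩
      intro i K T
      obtain ⟨x, hx, hxT, hH⟩ := hα i K T
      exact ⟨x, hx, hxT, key K α x hH⟩

end Pool.Agent.Results.MP_c77da8_nt.DilatedChains
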