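import Mathlib
import Pool.Agent.W5h75.SQ.Real

/-!
# Almost prime Cunningham chains in short intervals, with a prescribed parity

Let `S` be a set of an odd number of positions `j < k` and `θ > 1 - 1 / (2 |S|)`.  EVERY interval
`(x, x + x ^ θ]` with `x` large contains, in a given residue class, the beginning `n` of a chain
`n, 2 n + 1, 4 n + 3, ...` of length `k` whose terms are products of at most `R` primes, all larger
than `x ^ δ`, such that the number of prime factors of the product of the terms with `j ∈ S` has a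
prescribed parity; the number of these `n` is at least `x ^ (1 - 2 |S| (1 - θ) - ε)`.

The main theorem is `Pool.Agent.W5h75.SQ.liouOdd`.
-/

set_option autoImplicit false

open Finset

namespace Pool.Agent.Results.MP_c77da8_nt.OddSetsInShortIntervals

/-- `c j n = 2 ^ j (n + 1) - 1`, the chain `n, 2 n + 1, 4 n + 3, ...` of the first kind. -/
def c (j n : ℕ) : ℕ := 2 ^ j * (n + 1) - 1

theorem c_cast (j n : ℕ) : ((c j n : ℕ) : ℤ) = 2 ^ j * (n : ℤ) + (2 ^ j - 1) := by
  unfold c
  have h1 : 1 ≤ 2 ^ j * (n + 1) := Nat.one_le_iff_ne_zero.2 (by positivity)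
  rw [Nat.cast_sub h1]
  push_cast
  ring

/-- **Almost prime chains of the first kind in short intervals, with prescribed parity.**
Let `k` be a length, `S` a set of an odd number of positions `j < k`, let `b`, `m` be such that the
terms `c j b`, `j < k`, are coprime to `m`, let `1 - 1 / (2 |S|) < θ ≤ 1` and `ε > 0`. There are `R`
and `δ > 0` such that for all large `x` and both parities at least `x ^ (1 - 2 |S| (1 - θ) - ε)`
integers `n` in `(x, x + x ^ θ]` with `n ≡ b` modulo `m` satisfy: the terms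
`c 0 n, ..., c (k-1) n` are products of at most `R` primes, all larger than `x ^ δ`, and the number of
prime factors (with multiplicity) of the product of the `c j n` with `j ∈ S` has the parity of `s`. -/
theorem result (k : ℕ) (S : Finset ℕ) (hS : S ⊆ range k) (hodd : Odd S.card) (m b : ℕ) (hm : 0 < m)
    (hb : ∀ j < k, Nat.Coprime (c j b) m) (θ ε : ℝ) (hθ : 1 - 1 / (2 * S.card) < θ) (hθ1 : θ ≤ 1)
    (hε : 0 < ε) :
    ∃ (R : ℕ) (δ : ℝ), 0 < δ ∧ ∃ x₀ : ℝ, ∀ x : ℝ, x₀ ≤ x → ∀ s : ℕ,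
    x ^ (1 - 2 * S.card * (1 - θ) - ε) ≤ ({n : ℕ | x < n ∧ (n : ℝ) ≤ x + x ^ θ ∧ n ≡ b [MOD m] ∧
      (∀ j < k, ArithmeticFunction.cardFactors (c j n) ≤ R ∧
        ∀ p : ℕ, p.Prime → p ∣ c j n → x ^ δ < p) ∧
      (∑ j ∈ S, ArithmeticFunction.cardFactors (c j n)) % 2 = s % 2}.ncard : ℝ) := by
  classical
  have hcard : (S.subtype (· ∈ range k)).card = S.card := by
    rw [Finset.card_subtype]
    congr 1
    exact Finset.filter_true_of_mem fun x hx => hS hx
  obtain ⟨R, δ, hδ, x₀, h⟩ := Pool.Agent.W5h75.SQ.liouOdd {j // j ∈ range k}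
    (fun j => 2 ^ (j : ℕ)) (fun j => 2 ^ (j : ℕ) - 1) (S.subtype (· ∈ range k))
    (fun j => by positivity) (by
      intro i j hij h0
      apply hij
      apply Subtype.ext
      have h1 : (2 : ℤ) ^ (i : ℕ) = 2 ^ (j : ℕ) := by linear_combination -h0
      exact Int.pow_right_injective (by norm_num : 1 < (2 : ℤ).natAbs) h1) (by rw [hcard]; exact hodd)
    m hm b (by
      intro p hp
      by_cases hpm : p ∣ m
      · refine ⟨0, fun i hd => ?_⟩
        have h1 : (p : ℤ) ∣ ((c i b : ℕ) : ℤ) := by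
          rw [c_cast]
          simpa using hd
        have h2 : p ∣ c i b := Int.natCast_dvd_natCast.1 h1
        exact Nat.not_coprime_of_dvd_of_dvd hp.one_lt h2 hpm (hb i (mem_range.1 i.2))
      · have hc2 : IsCoprime (m : ℤ) (p : ℤ) := by
          rw [Nat.isCoprime_iff_coprime]
          exact ((Nat.Prime.coprime_iff_not_dvd hp).2 hpm).symm
        obtain ⟨u', v', huv'⟩ := hc2
        refine ⟨u' * (-1 - b), fun i hd => ?_⟩
        have h1 : (-1 : ℤ) = (2 ^ (i : ℕ) * (b + m * (u' * (-1 - b))) + (2 ^ (i : ℕ) - 1)) -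
            p * (2 ^ (i : ℕ) * ((1 + b) * v')) := by
          linear_combination (2 ^ (i : ℕ) * (1 + (b : ℤ))) * huv'
        have h2 : (p : ℤ) ∣ -1 := by
          rw [h1]
          exact dvd_sub hd (dvd_mul_right _ _)
        have h3 : p ∣ 1 := by exact_mod_cast dvd_neg.1 h2
        exact hp.one_lt.ne' (Nat.dvd_one.1 h3)) θ ε (by rw [hcard]; exact hθ) hθ1 hε
  rw [hcard] at h
  refine ⟨R, δ, hδ, x₀, fun x hx s => ?_⟩
  have hfin : {n : ℕ | x < n ∧ (n : ℝ) ≤ x + x ^ θ ∧ n ≡ b [MOD m] ∧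
      (∀ j < k, ArithmeticFunction.cardFactors (c j n) ≤ R ∧
        ∀ p : ℕ, p.Prime → p ∣ c j n → x ^ δ < p) ∧
      (∑ j ∈ S, ArithmeticFunction.cardFactors (c j n)) % 2 = s % 2}.Finite :=
    (Set.finite_Iic ⌊x + x ^ θ⌋₊).subset fun n hn => Nat.le_floor hn.2.1
  refine (h x hx (s : ZMod 2)).trans (Nat.cast_le.2 (Set.ncard_le_ncard ?_ hfin))
  rintro n ⟨h1, h2, h3, h4, h5⟩
  have hcf : ∀ j : ℕ, ArithmeticFunction.cardFactors (c j n) =
      ArithmeticFunction.cardFactors (2 ^ j * (n : ℤ) + (2 ^ j - 1)).natAbs := by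
    intro j
    rw [← c_cast, Int.natAbs_natCast]
  refine ⟨h1, h2, (Nat.modEq_iff_dvd.2 (by
    have : (b : ℤ) - n = -((n : ℤ) - b) := by ring
    rw [this]
    exact (dvd_neg).2 h3)), fun j hj => ?_, ?_⟩
  · obtain ⟨-, h6, h7⟩ := h4 ⟨j, mem_range.2 hj⟩
    refine ⟨by rw [hcf]; exact h6, fun p hp hd => h7 p hp ?_⟩
    have : (p : ℤ) ∣ ((c j n : ℕ) : ℤ) := Int.natCast_dvd_natCast.2 hd
    rwa [c_cast] at this
  · have h6 : ∑ i ∈ S.subtype (· ∈ range k),
        ArithmeticFunction.cardFactors (2 ^ (i : ℕ) * (n : ℤ) + (2 ^ (i : ℕ) - 1)).natAbs =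
        ∑ j ∈ S, ArithmeticFunction.cardFactors (c j n) := by
      rw [← Finset.sum_subtype_of_mem (p := (· ∈ range k))
        (fun j => ArithmeticFunction.cardFactors (c j n)) (fun x hx => hS hx)]
      exact sum_congr rfl fun i _ => (hcf i).symm
    rw [h6] at h5
    exact (ZMod.natCast_eq_natCast_iff' _ _ 2).1 h5

end Pool.Agent.Results.MP_c77da8_nt.OddSetsInShortIntervals
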