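import Pool.Agent.W5h28.CC.Main

/-!
# Cunningham chains of almost primes with many primes, in narrow progressions

Let `c_j(n) = 2 ^ j (n + 1) - 1`, so that `c_0(n) = n`, `c_{j+1}(n) = 2 c_j(n) + 1`: the question asks for `n` and
arbitrarily large `k` such that `c_0(n), …, c_{k-1}(n)` are primes.

1. *Chains.* Let `18 M < 5 T`. There are `K`, `R` and `δ > 0` such that for all sets of `T K` positions `j`, which are
divided into `T` classes of `K` positions (for instance, for the positions `j = 0, …, T K - 1`): all the terms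
`c_j(n)`, `j` in the set, have at most `R` prime factors, all of them larger than `N ^ δ`, and primes occur in more than
`M` of the `T` classes of positions, for at least `κ N / (log N) ^ (T K + 1)` of the `n ≤ N`; the set `E` of the
positions of the primes is the same for all these `n`. So for every `M` there are arbitrarily large `n` such that the
chain of length `k = k(M)` of `n` consists of almost primes and contains more than `M` primes. Moreover the `n` with the
exact set `E` of positions of primes contain many progressions `n, n + d, …, n + (L - 1) d` whose difference is at most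
`(log N) ^ C`, for every `L`, and everything is true in residue classes.

2. *Near chains.* For every `k` there are `K`, `R`, `δ > 0` such that, if for every `j < k` any `K` distinct shifts
`h_ji` are given (multiples of `(k K)!`), then for many `n ≤ N` there are `e_j` such that all the numbers
`q_j = c_j(n + h_{j,e_j})`, `j < k`, are almost primes as above, and AT LEAST `5/18` OF THESE `k` NUMBERS ARE PRIMES.
Here `q_{j+1} = 2 q_j + 1 + O(1)`, with a bound which depends on `k` only: a positive proportion of the terms of an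
approximate Cunningham chain of any length are primes, and the others are almost primes.

Both are special cases of a statement on arbitrary families of pairs `(v, h)` of a position and a shift.

The coloured theorem on linear forms with the constant `18 / 5` and with the order of magnitude
`N / (log N) ^ (T K + 1)` (`Pool.Agent.Y827.RO.lamE0`) and the relative theorem of Szemerédi for numbers with rough
values (`Pool.Agent.Y827.RO.narGen`) are from the starting files.
-/

set_option autoImplicit false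

open Finset Filter

namespace Pool.Agent.Results.MP_c77da8_nt.PrimesInAlmostPrimeChains

/-- The `j`-th term of the chain `n, 2 n + 1, 4 n + 3, …`. -/
def c (j n : ℕ) : ℕ := 2 ^ j * (n + 1) - 1

/-- At most `R` prime factors, counted with multiplicity, all of them larger than `y`. -/
def AlmostPrime (R : ℕ) (y : ℝ) (x : ℕ) : Prop :=
  x.primeFactorsList.length ≤ R ∧ ∀ p : ℕ, p.Prime → p ∣ x → y < p

/-- All the numbers `c_v(n + h)`, `v = v g i`, `h = h g i`, are almost primes, and exactly those with `(g, i) ∈ E` are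
primes. -/
def Pattern {T K : ℕ} (v h : Fin T → Fin K → ℕ) (E : Finset (Fin T × Fin K)) (R : ℕ) (y : ℝ) (n : ℕ) : Prop :=
  ∀ g i, AlmostPrime R y (c (v g i) (n + h g i)) ∧ ((c (v g i) (n + h g i)).Prime ↔ (g, i) ∈ E)

/-- **General form.** Let `18 M < 5 T`. There are `K ≥ 1`, `R`, `δ > 0` such that for all `T K` different pairs
`(v g i, h g i)`, `g < T`, `i < K`, for which for every prime `p ≤ T K` some `r` makes all `c_v(r + h)` indivisible by
`p`, and all `m ≥ 1`, `b` such that all `c_v(b + h)` are coprime to `m`, there is `κ > 0` and for every `L` there is `C`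
such that for all large `N` there are a set `E` of indices, with more than `M` different first members, and a
difference `1 ≤ d ≤ (log N) ^ C` such that
(a) at least `κ N / (log N) ^ (T K + 1)` of the `n ≤ N` are `≡ b` modulo `m` and satisfy `Pattern`;
(b) for at least `N / (log N) ^ C` of the `n ≤ N` all `n + l d`, `l < L`, are `≤ N`, `≡ b` modulo `m` and satisfy
`Pattern`. -/
def General (T M : ℕ) : Prop := ∃ (K R : ℕ) (δ : ℝ), 1 ≤ K ∧ 0 < δ ∧
  ∀ v h : Fin T → Fin K → ℕ, (Function.Injective fun x : Fin T × Fin K => (v x.1 x.2, h x.1 x.2)) →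
  (∀ p : ℕ, p.Prime → p ≤ T * K → ∃ r : ℕ, ∀ g i, ¬ p ∣ c (v g i) (r + h g i)) →
  ∀ m b : ℕ, 0 < m → (∀ g i, (c (v g i) (b + h g i)).Coprime m) →
  ∃ κ : ℝ, 0 < κ ∧ ∀ L : ℕ, ∃ C : ℕ, ∀ᶠ N : ℕ in atTop, ∃ (E : Finset (Fin T × Fin K)) (d : ℕ),
    M < (E.image Prod.fst).card ∧ 1 ≤ d ∧ (d : ℝ) ≤ Real.log N ^ C ∧
    (∃ S : Finset ℕ, S ⊆ Icc 1 N ∧ (∀ n ∈ S, n ≡ b [MOD m] ∧ Pattern v h E R ((N : ℝ) ^ δ) n) ∧
      κ * (N / Real.log N ^ (T * K + 1)) ≤ S.card) ∧
    ∃ S : Finset ℕ, S ⊆ Icc 1 N ∧ (∀ n ∈ S, ∀ l < L, n + l * d ≤ N ∧ n + l * d ≡ b [MOD m] ∧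
      Pattern v h E R ((N : ℝ) ^ δ) (n + l * d)) ∧ (N : ℝ) / Real.log N ^ C ≤ S.card

/-- **Chains** (the shifts are zero): there are `K ≥ 1`, `R`, `δ > 0` such that for any `T K` different positions
`v g i`, and all `m ≥ 1`, `b` such that all `c_v(b)` are coprime to `m`, the conclusions of `General` are true. -/
def Chains (T M : ℕ) : Prop := ∃ (K R : ℕ) (δ : ℝ), 1 ≤ K ∧ 0 < δ ∧
  ∀ v : Fin T → Fin K → ℕ, (Function.Injective fun x : Fin T × Fin K => v x.1 x.2) →
  ∀ m b : ℕ, 0 < m → (∀ g i, (c (v g i) b).Coprime m) →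
  ∃ κ : ℝ, 0 < κ ∧ ∀ L : ℕ, ∃ C : ℕ, ∀ᶠ N : ℕ in atTop, ∃ (E : Finset (Fin T × Fin K)) (d : ℕ),
    M < (E.image Prod.fst).card ∧ 1 ≤ d ∧ (d : ℝ) ≤ Real.log N ^ C ∧
    (∃ S : Finset ℕ, S ⊆ Icc 1 N ∧ (∀ n ∈ S, n ≡ b [MOD m] ∧ Pattern v (fun _ _ => 0) E R ((N : ℝ) ^ δ) n) ∧
      κ * (N / Real.log N ^ (T * K + 1)) ≤ S.card) ∧
    ∃ S : Finset ℕ, S ⊆ Icc 1 N ∧ (∀ n ∈ S, ∀ l < L, n + l * d ≤ N ∧ n + l * d ≡ b [MOD m] ∧
      Pattern v (fun _ _ => 0) E R ((N : ℝ) ^ δ) (n + l * d)) ∧ (N : ℝ) / Real.log N ^ C ≤ S.card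

/-- **Near chains of length `k`**: there are `K ≥ 1`, `R`, `δ > 0` such that for all `h j i`, `j < k`, `i < K`,
multiples of `(k K)!` and different for different `i`, all `m ≥ 1`, `b` such that all `c_j(b + h j i)` are coprime to
`m`, and all `L`, there is `C` such that for all large `N` there are `J ⊆ {0, …, k - 1}` with at least `5 k / 18`
elements, `e_j`, `j < k`, and `1 ≤ d ≤ (log N) ^ C` such that for at least `N / (log N) ^ C` of the `n ≤ N` all
`x = n + l d`, `l < L`, are `≤ N` and `≡ b` modulo `m`, and all `c_j(x + h_{j,e_j})`, `j < k`, are almost primes, and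
primes exactly for `j ∈ J`. -/
def NearChains (k : ℕ) : Prop := ∃ (K R : ℕ) (δ : ℝ), 1 ≤ K ∧ 0 < δ ∧
  ∀ h : Fin k → Fin K → ℕ, (∀ j, Function.Injective (h j)) → (∀ j i, (k * K).factorial ∣ h j i) →
  ∀ m b : ℕ, 0 < m → (∀ (j : Fin k) (i : Fin K), (c j (b + h j i)).Coprime m) → ∀ L : ℕ, ∃ C : ℕ, ∀ᶠ N : ℕ in atTop,
  ∃ (J : Finset (Fin k)) (e : Fin k → Fin K) (d : ℕ), 5 * k ≤ 18 * J.card ∧ 1 ≤ d ∧ (d : ℝ) ≤ Real.log N ^ C ∧
    ∃ S : Finset ℕ, S ⊆ Icc 1 N ∧ (∀ n ∈ S, ∀ l < L, n + l * d ≤ N ∧ n + l * d ≡ b [MOD m] ∧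
      ∀ j : Fin k, AlmostPrime R ((N : ℝ) ^ δ) (c j (n + l * d + h j (e j))) ∧
        ((c j (n + l * d + h j (e j))).Prime ↔ j ∈ J)) ∧ (N : ℝ) / Real.log N ^ C ≤ S.card

theorem general (T M : ℕ) (hT : 1 ≤ T) (hTM : 18 * M < 5 * T) : General T M :=
  Pool.Agent.W5h28.CC.gen T M hT hTM

theorem chains {T M : ℕ} (hG : General T M) : Chains T M := by
  obtain ⟨K, R, δ, hK, hδ, H⟩ := hG
  refine ⟨K, R, δ, hK, hδ, fun v hv m b hm hcop => H v (fun _ _ => 0) ?_ ?_ m b hm hcop⟩
  · intro x y hxy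
    exact hv (congrArg Prod.fst hxy)
  · intro p hp _
    refine ⟨p - 1, fun g i hd => ?_⟩
    have h1 := Pool.Agent.W5h28.CC.c_add (v g i) (p - 1 + 0)
    have h2 : p - 1 + 0 + 1 = p := by
      have := hp.two_le
      omega
    rw [h2] at h1
    have h3 : p ∣ c (v g i) (p - 1 + 0) + 1 := by
      show p ∣ Pool.Agent.W5h28.CC.c (v g i) (p - 1 + 0) + 1
      rw [h1]
      exact Dvd.intro_left _ rfl
    have h4 := (Nat.dvd_add_right hd).1 h3
    exact hp.one_lt.ne' (Nat.dvd_one.1 h4)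

theorem nearChains {k M : ℕ} (hk : 1 ≤ k) (hM : 5 * k ≤ 18 * (M + 1)) (hG : General k M) : NearChains k := by
  classical
  obtain ⟨K, R, δ, hK, hδ, H⟩ := hG
  refine ⟨K, R, δ, hK, hδ, fun h hinj hdvd m b hm hcop L => ?_⟩
  obtain ⟨κ, -, H1⟩ := H (fun j _ => (j : ℕ)) h (by
    intro x y hxy
    have h1 : (x.1 : ℕ) = y.1 := congrArg Prod.fst hxy
    have h2 : h x.1 x.2 = h y.1 y.2 := congrArg Prod.snd hxy
    have h3 : x.1 = y.1 := Fin.ext h1
    rw [← h3] at h2
    exact Prod.ext h3 (hinj x.1 h2)) (by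
    intro p hp hpk
    refine ⟨p - 1, fun g i hd => ?_⟩
    have hpf : p ∣ h g i := ((hp.dvd_factorial).2 hpk).trans (hdvd g i)
    have h1 := Pool.Agent.W5h28.CC.c_add (g : ℕ) (p - 1 + h g i)
    have h2 : p - 1 + h g i + 1 = p + h g i := by
      have := hp.two_le
      omega
    rw [h2] at h1
    have h3 : p ∣ c (g : ℕ) (p - 1 + h g i) + 1 := by
      show p ∣ Pool.Agent.W5h28.CC.c (g : ℕ) (p - 1 + h g i) + 1
      rw [h1]
      exact (dvd_add (Nat.dvd_refl p) hpf).mul_left _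
    have h4 := (Nat.dvd_add_right hd).1 h3
    exact hp.one_lt.ne' (Nat.dvd_one.1 h4)) m b hm hcop
  obtain ⟨C, hC⟩ := H1 L
  refine ⟨C, ?_⟩
  filter_upwards [hC] with N hN
  obtain ⟨E, d, hE, hd1, hd2, -, S, hS1, hS2, hS3⟩ := hN
  have hch : ∀ j : Fin k, ∃ i : Fin K, j ∈ E.image Prod.fst → (j, i) ∈ E := by
    intro j
    by_cases hj : j ∈ E.image Prod.fst
    · obtain ⟨x, hx, hxj⟩ := mem_image.1 hj
      exact ⟨x.2, fun _ => by rw [← hxj]; exact hx⟩
    · exact ⟨⟨0, hK⟩, fun h => absurd h hj⟩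
  choose e he using hch
  refine ⟨E.image Prod.fst, e, d, by omega, hd1, hd2, S, hS1, fun n hn l hl => ?_, hS3⟩
  obtain ⟨h1, h2, h3⟩ := hS2 n hn l hl
  refine ⟨h1, h2, fun j => ⟨(h3 j (e j)).1, ?_⟩⟩
  rw [(h3 j (e j)).2]
  exact ⟨fun h => mem_image.2 ⟨_, h, rfl⟩, he j⟩

/-- The general form for all `T ≥ 1` and `18 M < 5 T`, its special case of chains, and near chains of every length. -/
theorem result : (∀ T M : ℕ, 1 ≤ T → 18 * M < 5 * T → General T M ∧ Chains T M) ∧ ∀ k : ℕ, 1 ≤ k → NearChains k := by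
  refine ⟨fun T M hT hTM => ⟨general T M hT hTM, chains (general T M hT hTM)⟩, fun k hk => ?_⟩
  obtain ⟨M, hM⟩ : ∃ M, M = (5 * k - 1) / 18 := ⟨_, rfl⟩
  exact nearChains (M := M) hk (by omega) (general k M hk (by omega))

end Pool.Agent.Results.MP_c77da8_nt.PrimesInAlmostPrimeChains
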